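import Mathlib
import Pool.Agent.Y552.CT.Defs

/-!
# The space of additive maps from a finitely generated abelian normal subgroup to `ℂ`
-/

set_option autoImplicit false

open Pool.Agent.Y552.CT Polynomial

namespace Pool.Agent.Y44.CT

universe u v

section Core

variable {K : Type u} [AddGroup K] {Q : Type v} [AddCommGroup Q]

/-- elements of a finite kernel are killed by additive maps to torsion free groups -/
theorem apply_eq_zero_of_ker {C : Type*} [AddCommGroup C] [Module.IsTorsionFree ℤ C]
    (π : K →+ Q) (hfin : (π.ker : Set K).Finite) (f : K →+ C) {x : K} (hx : π x = 0) :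
    f x = 0 := by
  have : Finite π.ker := hfin
  have h1 : IsOfFinAddOrder (⟨x, hx⟩ : π.ker) := isOfFinAddOrder_of_finite _
  obtain ⟨m, hm, hmx⟩ := isOfFinAddOrder_iff_nsmul_eq_zero.mp h1
  have h2 : m • x = 0 := by
    have := congrArg (Subtype.val) hmx
    simpa using this
  have h3 : (m : ℤ) • f x = 0 := by
    rw [natCast_zsmul, ← map_nsmul, h2, map_zero]
  have h4 : (m : ℤ) ≠ 0 := by exact_mod_cast hm.ne'
  exact (smul_eq_zero.mp h3).resolve_left h4

theorem exists_factor {C : Type*} [AddCommGroup C] [Module.IsTorsionFree ℤ C]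
    (π : K →+ Q) (hs : Function.Surjective π) (hfin : (π.ker : Set K).Finite) (f : K →+ C) :
    ∃ f' : Q →+ C, f'.comp π = f := by
  refine ⟨AddMonoidHom.liftOfSurjective π hs ⟨f, fun x hx => ?_⟩, ?_⟩
  · exact apply_eq_zero_of_ker π hfin f hx
  · exact AddMonoidHom.liftOfRightInverse_comp _ _ _ _

/-- composition with `π` on maps from the free module `Q` -/
noncomputable def psi {ι : Type*} (b : Module.Basis ι ℤ Q) (π : K →+ Q) :
    (ι → ℂ) →ₗ[ℂ] (K →+ ℂ) where
  toFun c := (b.constr ℂ c).toAddMonoidHom.comp π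
  map_add' c d := by
    ext x
    simp [map_add]
  map_smul' z c := by
    ext x
    simp [map_smul]

theorem psi_surj {ι : Type*} (b : Module.Basis ι ℤ Q) (π : K →+ Q)
    (hs : Function.Surjective π) (hfin : (π.ker : Set K).Finite) :
    Function.Surjective (psi b π) := by
  intro f
  obtain ⟨f', hf'⟩ := exists_factor π hs hfin f
  refine ⟨fun i => f' (b i), ?_⟩
  have h1 : b.constr ℂ (fun i => f' (b i)) = f'.toIntLinearMap := by
    apply b.ext
    intro i
    simp
  ext x
  change (b.constr ℂ (fun i => f' (b i))) (π x) = f x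
  rw [h1, ← hf']
  rfl

theorem core12 [Module.Free ℤ Q] [Module.Finite ℤ Q] (π : K →+ Q)
    (hs : Function.Surjective π) (hfin : (π.ker : Set K).Finite) :
    FiniteDimensional ℂ (K →+ ℂ) ∧ Module.finrank ℂ (K →+ ℂ) ≤ Module.finrank ℤ Q := by
  let b := Module.finBasis ℤ Q
  have h1 := psi_surj b π hs hfin
  have h2 : FiniteDimensional ℂ (K →+ ℂ) := Module.Finite.of_surjective (psi b π) h1
  refine ⟨h2, ?_⟩
  have h3 := LinearMap.finrank_le_finrank_of_surjective h1
  simpa using h3

theorem core3 [Module.Free ℤ Q] [Module.Finite ℤ Q] (π : K →+ Q)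
    (hfin : (π.ker : Set K).Finite) :
    {a : K | ∀ f : K →+ ℂ, f a = 0}.Finite := by
  refine hfin.subset fun a ha => ?_
  let b := Module.finBasis ℤ Q
  change π a = 0
  apply b.ext_elem
  intro i
  have h1 := ha (((Int.castAddHom ℂ).comp (b.coord i).toAddMonoidHom).comp π)
  have h2 : ((b.repr (π a) i : ℤ) : ℂ) = 0 := h1
  have h3 : b.repr (π a) i = 0 := by exact_mod_cast h2
  rw [h3, map_zero]
  rfl

theorem core4 [Module.Free ℤ Q] [Module.Finite ℤ Q] (π : K →+ Q)
    (hs : Function.Surjective π) (hfin : (π.ker : Set K).Finite) (g : K →+ K) :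
    ∃ P : ℤ[X], P.Monic ∧ P.natDegree = Module.finrank ℤ Q ∧
      ∀ T : Module.End ℂ (K →+ ℂ), (∀ f, T f = f.comp g) → ∀ f, aeval T P f = 0 := by
  obtain ⟨gq, hgq⟩ := exists_factor π hs hfin (π.comp g)
  let G : Q →ₗ[ℤ] Q := gq.toIntLinearMap
  have hG : ∀ x, G (π x) = π (g x) := fun x => DFunLike.congr_fun hgq x
  refine ⟨G.charpoly, G.charpoly_monic, G.charpoly_natDegree, ?_⟩
  intro T hT
  have hpow : ∀ (n : ℕ) (f' : Q →+ ℂ) (x : K),
      ((T ^ n) (f'.comp π)) x = f' ((G ^ n) (π x)) := by
    intro n
    induction n with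
    | zero => intro f' x; simp
    | succ n ih =>
      intro f' x
      have h1 : (f'.comp π).comp g = (f'.comp gq).comp π := by
        ext y
        exact congrArg f' (hG y).symm
      rw [pow_succ, Module.End.mul_apply, hT, h1, ih, pow_succ', Module.End.mul_apply]
      rfl
  have hp : ∀ (p : ℤ[X]) (f' : Q →+ ℂ) (x : K),
      ((aeval T p) (f'.comp π)) x = f' ((aeval G p) (π x)) := by
    intro p f' x
    rw [aeval_eq_sum_range, aeval_eq_sum_range, LinearMap.sum_apply, LinearMap.sum_apply,
      map_sum, AddMonoidHom.finsetSum_apply]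
    refine Finset.sum_congr rfl fun i _ => ?_
    rw [LinearMap.smul_apply, LinearMap.smul_apply, map_zsmul, ← hpow i f' x]
    rfl
  intro f
  obtain ⟨f', rfl⟩ := exists_factor π hs hfin f
  ext x
  rw [hp, LinearMap.aeval_self_charpoly]
  simp

end Core

theorem dim : S_DIM.{u} := by
  intro G _ A _ hA hfg
  let L := Additive (Abelianization A)
  have hG : Group.FG A := (Group.fg_iff_subgroup_fg A).mpr hfg
  have hG2 : Group.FG (Abelianization A) :=
    Group.fg_of_surjective (f := Abelianization.of) (QuotientGroup.mk'_surjective _)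
  have hG3 : AddGroup.FG L := GroupFG.iff_add_fg.mp hG2
  have hL : Module.Finite ℤ L := Module.Finite.iff_addGroup_fg.mpr hG3
  let Q := L ⧸ Submodule.torsion ℤ L
  let e : Additive A →+ L := MonoidHom.toAdditive Abelianization.of
  let m : L →+ Q := (Submodule.mkQ (Submodule.torsion ℤ L)).toAddMonoidHom
  have hes0 : Function.Surjective (Abelianization.of : A →* Abelianization A) :=
    QuotientGroup.mk'_surjective _
  have hes : Function.Surjective e := hes0
  have hei0 : Function.Injective (Abelianization.of : A →* Abelianization A) := by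
    rw [← MonoidHom.ker_eq_bot_iff, Abelianization.ker_of, commutator_def,
      Subgroup.commutator_eq_bot_iff_le_centralizer]
    intro x _
    rw [Subgroup.mem_centralizer_iff]
    intro y _
    exact Subtype.ext (hA y y.2 x x.2)
  have hei : Function.Injective e := hei0
  have hms : Function.Surjective m := Submodule.mkQ_surjective _
  have hQr : Module.finrank ℤ Q = Module.finrank ℤ L :=
    finrank_quotient_eq_of_le_torsion le_rfl
  have hs : Function.Surjective (m.comp e) := hms.comp hes
  have hfin : ((m.comp e).ker : Set (Additive A)).Finite := by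
    have h1 : Finite (Submodule.torsion ℤ L) :=
      Module.finite_of_fg_torsion _ (Submodule.torsion_isTorsion)
    have h2 : ((Submodule.torsion ℤ L : Submodule ℤ L) : Set L).Finite := h1
    refine (h2.preimage hei.injOn).subset fun x hx => ?_
    exact (Submodule.Quotient.mk_eq_zero _).mp hx
  obtain ⟨h1, h2⟩ := core12 (m.comp e) hs hfin
  refine ⟨h1, h2.trans hQr.le, ?_, ?_⟩
  · refine (core3 (m.comp e) hfin).subset ?_
    intro a ha
    exact ha
  · intro t
    obtain ⟨P, hP1, hP2, hP3⟩ := core4 (m.comp e) hs hfin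
      (MonoidHom.toAdditive (MulAut.conjNormal t⁻¹ : A ≃* A).toMonoidHom)
    exact ⟨P, hP1, hP2.trans hQr, hP3 (ac A t) fun f => rfl⟩

end Pool.Agent.Y44.CT
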